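import Pool.Agent.Helper570.SSD
import Pool.Agent.Helper570.Asplund

set_option autoImplicit false

namespace Pool.Agent.Results.MP_15aca8_an.NoSSD

/-- There is an Asplund space with no equivalent strongly subdifferentiable norm. -/
theorem result :
    ∃ (X : Type) (_ : NormedAddCommGroup X) (_ : NormedSpace ℝ X),
      CompleteSpace X ∧
      (∀ Y : Submodule ℝ X, IsClosed (Y : Set X) →
        TopologicalSpace.SeparableSpace Y →
        TopologicalSpace.SeparableSpace (Y →L[ℝ] ℝ)) ∧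
      ∀ N : X → ℝ,
        (∀ x y : X, N (x + y) ≤ N x + N y) →
        (∀ (c : ℝ) (x : X), N (c • x) = |c| * N x) →
        (∃ a b : ℝ, 0 < a ∧ 0 < b ∧ ∀ x : X, a * ‖x‖ ≤ N x ∧ N x ≤ b * ‖x‖) →
        ¬ (∀ x : X, ∃ τ : X → ℝ, ∀ ε : ℝ, 0 < ε → ∃ δ : ℝ, 0 < δ ∧
            ∀ t : ℝ, 0 < t → t < δ → ∀ h : X, N h = 1 →
              |(N (x + t • h) - N x) / t - τ h| ≤ ε) := by
  refine ⟨Helper570.Tree.X, inferInstance, inferInstance, inferInstance,
    fun Y _ hY => Helper570.Tree.asplund Y hY, ?_⟩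
  intro N hadd hsmul hequiv hssd
  obtain ⟨a, b, ha, hb, hab⟩ := hequiv
  let p : Seminorm ℝ Helper570.Tree.X := Seminorm.of N hadd (fun c x => by
    rw [hsmul, Real.norm_eq_abs])
  exact Helper570.Tree.no_ssd (p := p) ha hb (fun x => (hab x).2) (fun x => (hab x).1) hssd

end Pool.Agent.Results.MP_15aca8_an.NoSSD
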